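import Pool.Agent.Helper97.TI.Defs

set_option autoImplicit false
open MvPolynomial

namespace TI

theorem FRI_ren {r : ℕ} (p : MvPolynomial (Fin r) ℂ) :
    finSuccEquiv ℂ r (rename Fin.succ p) = Polynomial.C p := by
  induction p using MvPolynomial.induction_on with
  | C a =>
    rw [rename_C, finSuccEquiv_apply, eval₂Hom_C]
    rfl
  | add p q hp hq => rw [map_add, map_add, hp, hq, Polynomial.C_add]
  | mul_X p i hp => rw [map_mul, map_mul, hp, rename_X, finSuccEquiv_X_succ, Polynomial.C_mul]

theorem FRI_split {r : ℕ} (P : MvPolynomial (Fin (r + 1)) ℂ) :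
    P = rename Fin.succ ((finSuccEquiv ℂ r P).coeff 0) +
      X 0 * (finSuccEquiv ℂ r).symm (finSuccEquiv ℂ r P).divX := by
  apply (finSuccEquiv ℂ r).injective
  rw [map_add, map_mul, FRI_ren, AlgEquiv.apply_symm_apply,
    finSuccEquiv_X_zero]
  have h := Polynomial.divX_mul_X_add (finSuccEquiv ℂ r P)
  linear_combination -h

theorem FRI_aeval {κ r : ℕ} (c : ℕ → RR κ) (P : MvPolynomial (Fin (r + 1)) ℂ) :
    (aeval (fun j : Fin (r + 1) => c j) P : RR κ) =
      aeval (fun j : Fin r => c (j + 1)) ((finSuccEquiv ℂ r P).coeff 0) +
      c 0 * aeval (fun j : Fin (r + 1) => c j)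
        ((finSuccEquiv ℂ r).symm (finSuccEquiv ℂ r P).divX) := by
  conv_lhs => rw [FRI_split P]
  rw [map_add, map_mul, aeval_rename, aeval_X]
  rfl

section FREE
variable {κ : ℕ} {Q : Type} [AddCommGroup Q] [Module (RR κ) Q]

/-- FRI: independence -/
theorem free_ind {ι : Type} [Fintype ι] (r : ℕ) (B₀ : Submodule (RR κ) Q) (c : ℕ → RR κ)
    (hreg : ∀ j < r, Reg (c j) (Bm B₀ c j)) (h : ι → Q)
    (hi : ∀ a : ι → ℂ, (∑ i, (C (a i) : RR κ) • h i) ∈ Bm B₀ c r → a = 0)
    (P : ι → MvPolynomial (Fin r) ℂ)
    (hP : (∑ i, (aeval (fun j : Fin r => c j) (P i) : RR κ) • h i) ∈ B₀) : P = 0 := by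
  induction r generalizing B₀ c with
  | zero =>
    have h1 : ∀ i, P i = C (coeff 0 (P i)) := fun i => eq_C_of_isEmpty (P i)
    have h2 := hi (fun i => coeff 0 (P i)) (by
      rw [Bm_zero]
      have : (∑ i, (C (coeff 0 (P i)) : RR κ) • h i) =
          ∑ i, (aeval (fun j : Fin 0 => c j) (P i) : RR κ) • h i := by
        apply Finset.sum_congr rfl
        intro i _
        congr 1
        conv_rhs => rw [h1 i]
        rw [aeval_C]
        rfl
      rw [this]
      exact hP)
    funext i
    rw [h1 i, congrFun h2 i, Pi.zero_apply, C_0]
    rfl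
  | succ r ih =>
    -- induction on the degree in the first variable
    have key : ∀ n : ℕ, ∀ P : ι → MvPolynomial (Fin (r + 1)) ℂ,
        (∀ i, (finSuccEquiv ℂ r (P i)).natDegree ≤ n) →
        (∑ i, (aeval (fun j : Fin (r + 1) => c j) (P i) : RR κ) • h i) ∈ B₀ → P = 0 := by
      intro n
      induction n with
      | zero =>
        intro P hdeg hP
        have h0 := ih (B₀ ⊔ mulTop Q (c 0)) (fun t => c (t + 1))
          (by
            intro j hj
            rw [← Bm_shift]
            exact hreg (j + 1) (by omega))
          (by
            intro a ha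
            rw [← Bm_shift] at ha
            exact hi a ha)
          (fun i => (finSuccEquiv ℂ r (P i)).coeff 0)
          (by
            have e : (∑ i, (aeval (fun j : Fin r => c (j + 1))
                ((finSuccEquiv ℂ r (P i)).coeff 0) : RR κ) • h i) =
                (∑ i, (aeval (fun j : Fin (r + 1) => c j) (P i) : RR κ) • h i) -
                c 0 • ∑ i, (aeval (fun j : Fin (r + 1) => c j)
                  ((finSuccEquiv ℂ r).symm (finSuccEquiv ℂ r (P i)).divX) : RR κ) • h i := by
              rw [Finset.smul_sum, ← Finset.sum_sub_distrib]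
              apply Finset.sum_congr rfl
              intro i _
              rw [FRI_aeval c (P i), smul_smul, add_smul, add_sub_cancel_right]
            rw [e]
            exact Submodule.sub_mem _ (Submodule.mem_sup_left hP)
              (Submodule.mem_sup_right (mem_mulTop.2 ⟨_, rfl⟩)))
        funext i
        apply (finSuccEquiv ℂ r).injective
        rw [Polynomial.eq_C_of_natDegree_le_zero (hdeg i)]
        have := congrFun h0 i
        rw [this, Pi.zero_apply, Polynomial.C_0, Pi.zero_apply, map_zero]
      | succ n ihn =>
        intro P hdeg hP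
        have h0 := ih (B₀ ⊔ mulTop Q (c 0)) (fun t => c (t + 1))
          (by
            intro j hj
            rw [← Bm_shift]
            exact hreg (j + 1) (by omega))
          (by
            intro a ha
            rw [← Bm_shift] at ha
            exact hi a ha)
          (fun i => (finSuccEquiv ℂ r (P i)).coeff 0)
          (by
            have e : (∑ i, (aeval (fun j : Fin r => c (j + 1))
                ((finSuccEquiv ℂ r (P i)).coeff 0) : RR κ) • h i) =
                (∑ i, (aeval (fun j : Fin (r + 1) => c j) (P i) : RR κ) • h i) -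
                c 0 • ∑ i, (aeval (fun j : Fin (r + 1) => c j)
                  ((finSuccEquiv ℂ r).symm (finSuccEquiv ℂ r (P i)).divX) : RR κ) • h i := by
              rw [Finset.smul_sum, ← Finset.sum_sub_distrib]
              apply Finset.sum_congr rfl
              intro i _
              rw [FRI_aeval c (P i), smul_smul, add_smul, add_sub_cancel_right]
            rw [e]
            exact Submodule.sub_mem _ (Submodule.mem_sup_left hP)
              (Submodule.mem_sup_right (mem_mulTop.2 ⟨_, rfl⟩)))
        have hcoef : ∀ i, (finSuccEquiv ℂ r (P i)).coeff 0 = 0 := fun i => congrFun h0 i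
        have h1 := ihn (fun i => (finSuccEquiv ℂ r).symm (finSuccEquiv ℂ r (P i)).divX)
          (by
            intro i
            rw [AlgEquiv.apply_symm_apply, Polynomial.natDegree_divX_eq_natDegree_tsub_one]
            have := hdeg i
            omega)
          (by
            have hr := hreg 0 (by omega)
            rw [Bm_zero] at hr
            apply hr
            rw [Finset.smul_sum]
            have e : (∑ i, c 0 • ((aeval (fun j : Fin (r + 1) => c j)
                ((finSuccEquiv ℂ r).symm (finSuccEquiv ℂ r (P i)).divX) : RR κ) • h i)) =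
                ∑ i, (aeval (fun j : Fin (r + 1) => c j) (P i) : RR κ) • h i := by
              apply Finset.sum_congr rfl
              intro i _
              rw [FRI_aeval c (P i), hcoef i, map_zero, zero_add, smul_smul]
            rw [e]
            exact hP)
        funext i
        rw [FRI_split (P i), hcoef i, map_zero, zero_add]
        have := congrFun h1 i
        rw [this, Pi.zero_apply, mul_zero]
    exact key (Finset.univ.sup fun i => (finSuccEquiv ℂ r (P i)).natDegree) P
      (fun i => Finset.le_sup (f := fun i => (finSuccEquiv ℂ r (P i)).natDegree)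
        (Finset.mem_univ i)) hP

end FREE

end TI
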