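import Pool.Agent.Helper97.TI.Defs
import Pool.Agent.Helper97.TI.Stubs

set_option autoImplicit false
open MvPolynomial

namespace TI

theorem GOOD1_rec {α : Type} [Inhabited α] (P : ℕ → (ℕ → α) → α → Prop)
    (hcongr : ∀ j f g v, (∀ t < j, f t = g t) → P j f v → P j g v)
    (hex : ∀ j f, ∃ v, P j f v) : ∃ y : ℕ → α, ∀ j, P j y (y j) := by
  choose pick hpick using hex
  let seq : ℕ → (ℕ → α) := fun m => Nat.rec (fun _ => default)
    (fun j f => Function.update f j (pick j f)) m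
  have hseq : ∀ j, seq (j + 1) = Function.update (seq j) j (pick j (seq j)) := fun j => rfl
  have hagree : ∀ m j, j < m → seq m j = seq (j + 1) j := by
    intro m
    induction m with
    | zero => intro j hj; exact absurd hj (Nat.not_lt_zero j)
    | succ m ih =>
      intro j hj
      rcases Nat.lt_succ_iff_lt_or_eq.1 hj with h | h
      · rw [hseq, Function.update_of_ne (by omega), ih j h]
      · rw [h]
  refine ⟨fun j => seq (j + 1) j, ?_⟩
  intro j
  have h1 : seq (j + 1) j = pick j (seq j) := by rw [hseq, Function.update_self]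
  show P j (fun j => seq (j + 1) j) (seq (j + 1) j)
  rw [h1]
  exact hcongr j (seq j) _ _ (fun t ht => hagree j t ht) (hpick j (seq j))

section GOOD1aux
variable {κ : ℕ}

theorem GOOD1_sub_mem (p : RR κ) : p - C (coeff 0 p) ∈ mm κ := by
  unfold mm
  have h : Set.range (fun i : Fin κ => (X i : RR κ)) = X '' (Set.univ : Set (Fin κ)) := by
    rw [Set.image_univ]
  rw [h, MvPolynomial.mem_ideal_span_X_image]
  intro m hm
  by_contra hcon
  push Not at hcon
  have hm0 : m = 0 := by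
    ext i
    exact hcon i (Set.mem_univ i)
  rw [MvPolynomial.mem_support_iff, hm0, coeff_sub, coeff_zero_C, sub_self] at hm
  exact hm rfl

theorem GOOD1_eq_mm {𝔮 : Ideal (RR κ)} (hq : 𝔮.IsPrime) (h : mm κ ≤ 𝔮) : 𝔮 = mm κ := by
  apply le_antisymm _ h
  intro p hp
  have h1 : (C (coeff 0 p) : RR κ) ∈ 𝔮 := by
    have h2 := 𝔮.sub_mem hp (h (GOOD1_sub_mem p))
    rwa [sub_sub_cancel] at h2
  have h3 : coeff 0 p = 0 := by
    by_contra hne
    apply hq.ne_top
    rw [Ideal.eq_top_iff_one]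
    have h4 := 𝔮.mul_mem_left (C (coeff 0 p)⁻¹) h1
    rwa [← C_mul, inv_mul_cancel₀ hne, C_1] at h4
  have h5 := GOOD1_sub_mem p
  rwa [h3, C_0, sub_zero] at h5

/-- the linear combination map -/
noncomputable def GOOD1_lin (G : Fin κ → RR κ) : (Fin κ → ℂ) →ₗ[ℂ] RR κ where
  toFun a := ∑ i, C (a i) * G i
  map_add' a b := by
    rw [← Finset.sum_add_distrib]
    apply Finset.sum_congr rfl
    intro i _
    rw [Pi.add_apply, C_add, add_mul]
  map_smul' c a := by
    rw [RingHom.id_apply, Finset.smul_sum]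
    apply Finset.sum_congr rfl
    intro i _
    rw [Pi.smul_apply, smul_eq_mul, C_mul, MvPolynomial.smul_eq_C_mul, mul_assoc]

theorem GOOD1_lin_single (G : Fin κ → RR κ) (i : Fin κ) :
    GOOD1_lin G (Pi.single i 1) = G i := by
  show ∑ j, C ((Pi.single i 1 : Fin κ → ℂ) j) * G j = G i
  rw [Finset.sum_eq_single i]
  · rw [Pi.single_eq_same, C_1, one_mul]
  · intro j _ hj
    rw [Pi.single_eq_of_ne hj, C_0, zero_mul]
  · intro h
    exact absurd (Finset.mem_univ i) h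

theorem GOOD1_avoid {d : ℕ} {F : Fin κ → RR κ} (hF : NonDeg d F) (S : Set (Ideal (RR κ)))
    (hS : S.Finite) (hp : ∀ 𝔮 ∈ S, 𝔮.IsPrime ∧ 𝔮 ≠ mm κ) :
    ∃ y : RR κ, y.IsHomogeneous 1 ∧ ∀ 𝔮 ∈ S, y ∉ 𝔮 ∧ phi F y ∉ 𝔮 := by
  classical
  obtain ⟨L, hL⟩ := TIS.mm_pow_le hF
  let V : (Fin κ → RR κ) → Ideal (RR κ) → Submodule ℂ (Fin κ → ℂ) := fun G 𝔮 =>
    (𝔮.restrictScalars ℂ).comap (GOOD1_lin G)
  have hVmem : ∀ G 𝔮 a, a ∈ V G 𝔮 ↔ GOOD1_lin G a ∈ 𝔮 := fun G 𝔮 a => Iff.rfl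
  have hV1 : ∀ 𝔮 ∈ S, V (fun i => X i) 𝔮 ≠ ⊤ := by
    intro 𝔮 hq htop
    apply (hp 𝔮 hq).2
    apply GOOD1_eq_mm (hp 𝔮 hq).1
    unfold mm
    rw [Ideal.span_le]
    rintro _ ⟨i, rfl⟩
    have : (Pi.single i 1 : Fin κ → ℂ) ∈ V (fun i => X i) 𝔮 := by rw [htop]; trivial
    rw [hVmem, GOOD1_lin_single] at this
    exact this
  have hV2 : ∀ 𝔮 ∈ S, V F 𝔮 ≠ ⊤ := by
    intro 𝔮 hq htop
    apply (hp 𝔮 hq).2
    apply GOOD1_eq_mm (hp 𝔮 hq).1
    apply (hp 𝔮 hq).1.le_of_pow_le (n := L)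
    refine hL.trans ?_
    rw [Ideal.span_le]
    rintro _ ⟨i, rfl⟩
    have : (Pi.single i 1 : Fin κ → ℂ) ∈ V F 𝔮 := by rw [htop]; trivial
    rw [hVmem, GOOD1_lin_single] at this
    exact this
  let s : Finset (Submodule ℂ (Fin κ → ℂ)) :=
    hS.toFinset.image (V (fun i => X i)) ∪ hS.toFinset.image (V F)
  have hs : ⊤ ∉ s := by
    intro h
    rcases Finset.mem_union.1 h with h | h
    · obtain ⟨𝔮, hq, h2⟩ := Finset.mem_image.1 h
      exact hV1 𝔮 (hS.mem_toFinset.1 hq) h2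
    · obtain ⟨𝔮, hq, h2⟩ := Finset.mem_image.1 h
      exact hV2 𝔮 (hS.mem_toFinset.1 hq) h2
  have hne := Subspace.biUnion_ne_univ_of_top_notMem (k := ℂ) hs
  obtain ⟨a, ha⟩ := (Set.ne_univ_iff_exists_notMem _).1 hne
  rw [Set.mem_iUnion₂] at ha
  push Not at ha
  refine ⟨GOOD1_lin (fun i => X i) a, ?_, ?_⟩
  · apply MvPolynomial.IsHomogeneous.sum
    intro i _
    have := (isHomogeneous_C (Fin κ) (a i)).mul (isHomogeneous_X ℂ i)
    rwa [zero_add] at this
  · intro 𝔮 hq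
    constructor
    · intro h
      exact ha _ (Finset.mem_union_left _ (Finset.mem_image_of_mem _ (hS.mem_toFinset.2 hq))) h
    · intro h
      apply ha (V F 𝔮) (Finset.mem_union_right _ (Finset.mem_image_of_mem _ (hS.mem_toFinset.2 hq)))
      have e : phi F (GOOD1_lin (fun i => X i) a) = GOOD1_lin F a := by
        show phi F (∑ i, C (a i) * X i) = ∑ i, C (a i) * F i
        rw [map_sum]
        apply Finset.sum_congr rfl
        intro i _
        rw [map_mul, aeval_X, algHom_C]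
        rfl
      show GOOD1_lin F a ∈ 𝔮
      rw [← e]
      exact h

end GOOD1aux

section GOOD
variable {κ : ℕ} {Q : Type} [AddCommGroup Q] [Module (RR κ) Q]

/-- GOOD1: good linear forms -/
theorem exists_good [Module.Finite (RR κ) Q] {d : ℕ} {F : Fin κ → RR κ} (hF : NonDeg d F)
    (B₀ : Submodule (RR κ) Q) :
    ∃ y : ℕ → RR κ, (∀ j, (y j).IsHomogeneous 1) ∧
      ∀ i j, ∀ 𝔮 ∈ associatedPrimes (RR κ) (Q ⧸ Bm B₀ (mixed y (fun t => phi F (y t)) i) j),
        𝔮 ≠ mm κ → y j ∉ 𝔮 ∧ phi F (y j) ∉ 𝔮 := by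
  obtain ⟨y, hy⟩ := GOOD1_rec (α := RR κ) (fun j f v => v.IsHomogeneous 1 ∧
      ∀ i, ∀ 𝔮 ∈ associatedPrimes (RR κ) (Q ⧸ Bm B₀ (mixed f (fun t => phi F (f t)) i) j),
        𝔮 ≠ mm κ → v ∉ 𝔮 ∧ phi F v ∉ 𝔮)
    (by
      rintro j f g v hfg ⟨h1, h2⟩
      refine ⟨h1, ?_⟩
      intro i 𝔮 hq
      apply h2 i 𝔮
      have e : Bm B₀ (mixed g (fun t => phi F (g t)) i) j =
          Bm B₀ (mixed f (fun t => phi F (f t)) i) j := by
        apply Bm_congr
        intro t ht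
        show (if t < i then phi F (g t) else g t) = (if t < i then phi F (f t) else f t)
        rw [hfg t ht]
      rw [← e]
      exact hq)
    (by
      intro j f
      obtain ⟨v, hv1, hv2⟩ := GOOD1_avoid hF
        (⋃ i ∈ Finset.range (j + 1), {𝔮 | 𝔮 ∈ associatedPrimes (RR κ)
          (Q ⧸ Bm B₀ (mixed f (fun t => phi F (f t)) i) j) ∧ 𝔮 ≠ mm κ})
        (by
          apply Set.Finite.biUnion (Finset.finite_toSet _)
          intro i _
          exact (associatedPrimes.finite (RR κ)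
            (Q ⧸ Bm B₀ (mixed f (fun t => phi F (f t)) i) j)).subset fun 𝔮 h => h.1)
        (by
          intro 𝔮 hq
          rw [Set.mem_iUnion₂] at hq
          obtain ⟨i, -, h1, h2⟩ := hq
          exact ⟨h1.isPrime, h2⟩)
      refine ⟨v, hv1, ?_⟩
      intro i 𝔮 hq hne
      apply hv2 𝔮
      rw [Set.mem_iUnion₂]
      refine ⟨min i j, Finset.mem_range.2 (by omega), ?_, hne⟩
      have e : Bm B₀ (mixed f (fun t => phi F (f t)) (min i j)) j =
          Bm B₀ (mixed f (fun t => phi F (f t)) i) j := by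
        apply Bm_congr
        intro t ht
        unfold mixed
        by_cases h : t < i
        · rw [if_pos h, if_pos (by omega)]
        · rw [if_neg h, if_neg (by omega)]
      show 𝔮 ∈ associatedPrimes (RR κ)
          (Q ⧸ Bm B₀ (mixed f (fun t => phi F (f t)) (min i j)) j)
      rw [e]
      exact hq)
  exact ⟨y, fun j => (hy j).1, fun i j 𝔮 hq hne => (hy j).2 i 𝔮 hq hne⟩

end GOOD

end TI
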